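import Pool.Agent.J4H59.PL.Stm3

/-!
# Project CY2, job (VNA): a normalised subgroup of finite index
-/

set_option autoImplicit false

namespace Pool.Agent.J4H55.CY

open Pool.Agent.J4H59.PG Pool.Agent.J4H59.PL

theorem finite_hom {G A : Type} [Group G] [Group A] [Finite A] [hG : Group.FG G] :
    Finite (G →* A) := by
  obtain ⟨S, hS⟩ := hG.out
  refine Finite.of_injective (fun (φ : G →* A) (s : S) => φ s) ?_
  intro φ ψ h
  refine MonoidHom.eq_of_eqOn_dense hS fun s hs => ?_
  exact congrFun h ⟨s, hs⟩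

/-- one subgroup of finite index in all subgroups of index at most `C` -/
theorem exists_core (G : Type) [Group G] [Group.FG G] (C : ℕ) :
    ∃ K : Subgroup G, K.index ≠ 0 ∧ ∀ H : Subgroup G, H.index ≠ 0 → H.index ≤ C → K ≤ H := by
  have : ∀ m : ℕ, Finite (G →* Equiv.Perm (Fin m)) := fun m => finite_hom
  refine ⟨⨅ x : (Σ m : Fin (C + 1), (G →* Equiv.Perm (Fin (m : ℕ)))), x.2.ker, ?_, ?_⟩
  · refine Subgroup.index_iInf_ne_zero fun x => ?_
    rw [Subgroup.index_ker]
    exact Nat.card_pos.ne'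
  · intro H h0 hC
    have : H.FiniteIndex := ⟨h0⟩
    have : Finite (G ⧸ H) := Subgroup.finite_quotient_of_finiteIndex
    obtain ⟨e⟩ : Nonempty ((G ⧸ H) ≃ Fin H.index) := by
      refine ⟨Finite.equivFinOfCardEq ?_⟩
      rfl
    have h1 := iInf_le (fun x : (Σ m : Fin (C + 1), (G →* Equiv.Perm (Fin (m : ℕ)))) =>
      x.2.ker) ⟨⟨H.index, by omega⟩,
        (e.permCongrHom.toMonoidHom).comp (MulAction.toPermHom G (G ⧸ H))⟩
    refine h1.trans ?_
    intro g hg
    have h2 : (MulAction.toPermHom G (G ⧸ H)) g = 1 := by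
      have h3 : e.permCongrHom ((MulAction.toPermHom G (G ⧸ H)) g) = 1 := hg
      exact (map_eq_one_iff _ e.permCongrHom.injective).1 h3
    have h4 : g ∈ H.normalCore := by
      rw [Subgroup.normalCore_eq_ker]
      exact h2
    exact Subgroup.normalCore_le H h4

theorem t_VNA : S_VNA := by
  intro G _ N t hN ht C hC
  have : Group.FG N := (Group.fg_iff_subgroup_fg N).2 hN
  obtain ⟨K, hK0, hK⟩ := exists_core N C
  refine ⟨⨅ k : ℤ, cc (t ^ k) N, ?_, ?_, ?_⟩
  · refine (iInf_le _ (0 : ℤ)).trans ?_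
    intro x hx
    rw [mem_cc, zpow_zero, inv_one, one_mul, mul_one] at hx
    exact hx
  · have h1 : K ≤ (⨅ k : ℤ, cc (t ^ k) N).subgroupOf N := by
      intro x hx
      rw [Subgroup.mem_subgroupOf, Subgroup.mem_iInf]
      intro k
      have h2 : (cc (t ^ k) N).relIndex N ≠ 0 := by
        have h3 := (Subgroup.Commensurable.commensurator N).zpow_mem ht k
        rw [Subgroup.Commensurable.commensurator_mem_iff] at h3
        exact h3.1
      have h4 : K ≤ (cc (t ^ k) N).subgroupOf N := hK _ h2 (hC k)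
      exact Subgroup.mem_subgroupOf.1 (h4 hx)
    intro h
    have h5 := Subgroup.index_dvd_of_le h1
    have h6 : ((⨅ k : ℤ, cc (t ^ k) N).subgroupOf N).index = 0 := h
    rw [h6, zero_dvd_iff] at h5
    exact hK0 h5
  · ext y
    rw [mem_cc, Subgroup.mem_iInf, Subgroup.mem_iInf]
    have key : ∀ k : ℤ, t⁻¹ * y * t ∈ cc (t ^ k) N ↔ y ∈ cc (t ^ (k + 1)) N := by
      intro k
      rw [mem_cc, mem_cc]
      have h1 : (t ^ k)⁻¹ * (t⁻¹ * y * t) * t ^ k = (t ^ (k + 1))⁻¹ * y * t ^ (k + 1) := by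
        rw [add_comm k 1, zpow_add, zpow_one]
        group
      rw [h1]
    constructor
    · intro h k
      have := (key (k - 1)).1 (h (k - 1))
      rwa [sub_add_cancel] at this
    · intro h k
      exact (key k).2 (h (k + 1))

end Pool.Agent.J4H55.CY
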